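import Pool.Agent.N328.GL.Defs
import Pool.Agent.H160R2.HF.Final

/-!
Induction: from cubic graphs to graphs of minimum degree at least three.
-/

set_option autoImplicit false

namespace Pool.Agent.N328.GL
open Finset Pool.Agent.H160R2.HF Pool.Agent.N328.LF Pool.Agent.N328.CD

section
variable {V E : Type} [Fintype V] [Fintype E] [DecidableEq V] [DecidableEq E]

theorem bridgeless_of (G : OrGraph V E) (h : ∀ X : Finset V, (G.cut X).card ≠ 1) :
    G.Bridgeless := by
  classical
  intro e
  by_contra hr
  let X : Finset V := univ.filter (fun v => (G.sub (univ.erase e)).Reachable (G.t e) v)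
  apply h X
  rw [card_eq_one]
  refine ⟨e, ?_⟩
  ext d
  simp only [OrGraph.cut, mem_filter, mem_univ, true_and, mem_singleton, X]
  constructor
  · intro hd
    by_contra hne
    apply hd
    by_cases hl : G.t d = G.h d
    · rw [hl]
    have hadj : (G.sub (univ.erase e)).Adj (G.t d) (G.h d) := by
      rw [OrGraph.sub, SimpleGraph.fromRel_adj]
      exact ⟨hl, Or.inl ⟨d, by simp [hne], rfl, rfl⟩⟩
    exact ⟨fun h1 => h1.trans hadj.reachable, fun h1 => h1.trans hadj.symm.reachable⟩
  · rintro rfl hiff
    exact hr (hiff.1 (SimpleGraph.Reachable.refl _))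

theorem card_filter_option {α : Type} [Fintype α] (Q : Option α → Prop) [DecidablePred Q] :
    (univ.filter Q).card = (if Q none then 1 else 0) + (univ.filter (fun a => Q (some a))).card := by
  rw [card_filter, card_filter, Fintype.sum_option]

theorem deg_none (B : OrGraph V E) (v : V) (T H : Finset E) :
    (split B v T H).deg univ none = 1 + T.card + H.card := by
  unfold OrGraph.deg
  rw [card_filter_option, card_filter_option]
  have e1 : (univ.filter (fun a => (split B v T H).t (some a) = none)) = T := by
    ext a; simp [split]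
  have e2 : (univ.filter (fun a => (split B v T H).h (some a) = none)) = H := by
    ext a; simp [split]
  rw [e1, e2]
  simp [split]

theorem deg_some (B : OrGraph V E) (v : V) (T H : Finset E) (hT : ∀ e ∈ T, B.t e = v)
    (hH : ∀ e ∈ H, B.h e = v) (u : V) :
    (split B v T H).deg univ (some u) + (if u = v then T.card + H.card else 0) =
      B.deg univ u + (if u = v then 1 else 0) := by
  unfold OrGraph.deg
  rw [card_filter_option, card_filter_option]
  have e1 : (univ.filter (fun a => (split B v T H).t (some a) = some u)) =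
      (univ.filter (fun a => B.t a = u)) \ T := by
    ext a; simp only [split, mem_filter, mem_univ, true_and, mem_sdiff]
    by_cases ha : a ∈ T <;> simp [ha]
  have e2 : (univ.filter (fun a => (split B v T H).h (some a) = some u)) =
      (univ.filter (fun a => B.h a = u)) \ H := by
    ext a; simp only [split, mem_filter, mem_univ, true_and, mem_sdiff]
    by_cases ha : a ∈ H <;> simp [ha]
  rw [e1, e2]
  by_cases huv : u = v
  · subst huv
    have f1 : T ⊆ univ.filter (fun a => B.t a = u) := fun e he => by simp [hT e he]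
    have f2 : H ⊆ univ.filter (fun a => B.h a = u) := fun e he => by simp [hH e he]
    have g1 := card_sdiff_add_card_eq_card f1
    have g2 := card_sdiff_add_card_eq_card f2
    simp [split]
    omega
  · have f1 : (univ.filter (fun a => B.t a = u)) \ T = univ.filter (fun a => B.t a = u) := by
      apply Finset.sdiff_eq_self_of_disjoint
      rw [disjoint_left]
      intro e he heT
      exact huv ((mem_filter.1 he).2.symm.trans (hT e heT))
    have f2 : (univ.filter (fun a => B.h a = u)) \ H = univ.filter (fun a => B.h a = u) := by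
      apply Finset.sdiff_eq_self_of_disjoint
      rw [disjoint_left]
      intro e he heT
      exact huv ((mem_filter.1 he).2.symm.trans (hH e heT))
    rw [f1, f2]
    have : ¬ v = u := fun h => huv h.symm
    simp [split, huv, this]

end

theorem induct
    (P : ∀ (V E : Type) [Fintype V] [Fintype E] [DecidableEq V] [DecidableEq E],
      OrGraph V E → Prop)
    (hctr : ∀ (V' E' V E : Type) [Fintype V'] [Fintype E'] [DecidableEq V'] [DecidableEq E']
      [Fintype V] [Fintype E] [DecidableEq V] [DecidableEq E] (G' : OrGraph V' E')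
      (G : OrGraph V E) (α : V' → V) (β : E → E'), Contr G' G α β → P V' E' G' → P V E G)
    (g : ℕ → ℝ)
    (hspl : ∀ (V E : Type) [Fintype V] [Fintype E] [DecidableEq V] [DecidableEq E]
      (B : OrGraph V E), Connected B → (∀ X : Finset V, (B.cut X).card ≠ 1) →
      ∀ v : V, 4 ≤ B.deg univ v →
      ∃ T H : Finset E, (∀ e ∈ T, B.t e = v) ∧ (∀ e ∈ H, B.h e = v) ∧ T.card + H.card = 2 ∧
        Connected (split B v T H) ∧ ∀ X : Finset (Option V), ((split B v T H).cut X).card ≠ 1)
    (htrf : ∀ (V E : Type) [Fintype V] [Fintype E] [DecidableEq V] [DecidableEq E]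
      (B : OrGraph V E) (v : V) (T H : Finset E), (∀ e ∈ T, B.t e = v) →
      (∀ e ∈ H, B.h e = v) → ∀ N : ℕ,
      ∃ Φ : (Option E → Equiv.Perm (Fin N)) → (E → Equiv.Perm (Fin N)),
        (∀ p, ∃ (α : Option V × Fin N → V × Fin N) (β : E × Fin N → Option E × Fin N),
          Contr (lift (split B v T H) p) (lift B (Φ p)) α β) ∧
        ∀ A : Set (E → Equiv.Perm (Fin N)), (Φ ⁻¹' A).ncard = N.factorial * A.ncard)
    (hcub : ∀ (V E : Type) [Fintype V] [Fintype E] [DecidableEq V] [DecidableEq E]
      (B : OrGraph V E), B.Cubic → B.Bridgeless → Connected B →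
      ∃ C : ℝ, ∀ N : ℕ, 1 ≤ N →
        (({p : E → Equiv.Perm (Fin N) | ¬ P (V × Fin N) (E × Fin N) (lift B p)}.ncard : ℕ) : ℝ) ≤
          C * g N * ((N.factorial : ℝ) ^ Fintype.card E)) :
    ∀ k : ℕ, ∀ (V E : Type) [Fintype V] [Fintype E] [DecidableEq V] [DecidableEq E]
      (B : OrGraph V E), Connected B → (∀ X : Finset V, (B.cut X).card ≠ 1) →
      (∀ v, 3 ≤ B.deg univ v) → ∑ v, (B.deg univ v - 3) = k →
      ∃ C : ℝ, ∀ N : ℕ, 1 ≤ N →
        (({p : E → Equiv.Perm (Fin N) | ¬ P (V × Fin N) (E × Fin N) (lift B p)}.ncard : ℕ) : ℝ) ≤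
          C * g N * ((N.factorial : ℝ) ^ Fintype.card E) := by
  intro k
  induction k with
  | zero =>
    intro V E _ _ _ _ B hB hb h3 hk
    refine hcub V E B (fun v => ?_) (bridgeless_of B hb) hB
    have h1 := (sum_eq_zero_iff.1 hk) v (mem_univ v)
    have h2 := h3 v
    omega
  | succ k ih =>
    intro V E _ _ _ _ B hB hb h3 hk
    obtain ⟨v, hv⟩ : ∃ v, 4 ≤ B.deg univ v := by
      by_contra hcon
      push Not at hcon
      have : ∑ v, (B.deg univ v - 3) = 0 := sum_eq_zero (fun v _ => by have := hcon v; omega)
      omega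
    obtain ⟨T, H, hT, hH, hTH, hconn, hcut⟩ := hspl V E B hB hb v hv
    have hd0 : (split B v T H).deg univ none = 3 := by
      rw [deg_none]; omega
    have hds : ∀ u, (split B v T H).deg univ (some u) + (if u = v then 1 else 0) =
        B.deg univ u := by
      intro u
      have h1 := deg_some B v T H hT hH u
      rw [hTH] at h1
      split_ifs at h1 ⊢ <;> omega
    have h3' : ∀ x, 3 ≤ (split B v T H).deg univ x := by
      intro x
      cases x with
      | none => omega
      | some u =>
        have h1 := hds u
        have h2 := h3 u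
        by_cases huv : u = v
        · subst huv
          rw [if_pos rfl] at h1
          omega
        · rw [if_neg huv] at h1
          omega
    have hsum : ∑ x, ((split B v T H).deg univ x - 3) = k := by
      rw [Fintype.sum_option, hd0]
      have h1 : ∑ u, ((split B v T H).deg univ (some u) - 3) + 1 = ∑ u, (B.deg univ u - 3) := by
        have h2 : ∑ u : V, (if u = v then 1 else 0) = 1 := by simp
        rw [← h2, ← sum_add_distrib]
        refine sum_congr rfl fun u _ => ?_
        have h4 := hds u
        have h5 := h3' (some u)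
        split_ifs at h4 ⊢ <;> omega
      omega
    obtain ⟨C, hC⟩ := ih (Option V) (Option E) (split B v T H) hconn hcut h3' hsum
    refine ⟨C, fun N hN => ?_⟩
    obtain ⟨Φ, hΦ1, hΦ2⟩ := htrf V E B v T H hT hH N
    have h1 := hC N hN
    have h2 : (Φ ⁻¹' {p : E → Equiv.Perm (Fin N) | ¬ P (V × Fin N) (E × Fin N) (lift B p)}).ncard ≤
        {p : Option E → Equiv.Perm (Fin N) |
          ¬ P (Option V × Fin N) (Option E × Fin N) (lift (split B v T H) p)}.ncard := by
      apply Set.ncard_le_ncard _ (Set.toFinite _)
      intro p hp hgood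
      obtain ⟨α, β, hαβ⟩ := hΦ1 p
      exact hp (hctr _ _ _ _ _ _ α β hαβ hgood)
    rw [hΦ2] at h2
    have h3 : (N.factorial : ℝ) * (({p : E → Equiv.Perm (Fin N) |
        ¬ P (V × Fin N) (E × Fin N) (lift B p)}.ncard : ℕ) : ℝ) ≤
        C * g N * ((N.factorial : ℝ) ^ Fintype.card (Option E)) := by
      refine le_trans ?_ h1
      exact_mod_cast h2
    rw [Fintype.card_option, pow_succ] at h3
    have hf : (0 : ℝ) < N.factorial := by exact_mod_cast N.factorial_pos
    have h4 : (N.factorial : ℝ) * (({p : E → Equiv.Perm (Fin N) |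
        ¬ P (V × Fin N) (E × Fin N) (lift B p)}.ncard : ℕ) : ℝ) ≤
        (N.factorial : ℝ) * (C * g N * ((N.factorial : ℝ) ^ Fintype.card E)) := by
      refine h3.trans (le_of_eq ?_)
      ring
    exact le_of_mul_le_mul_left h4 hf

end Pool.Agent.N328.GL
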