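import Pool.Agent.N328.CD.Defs

/-!
Definitions of project GL (helper328): from cubic graphs to graphs of minimum degree
at least three (flows and cycle double covers of almost all lifts).
-/

set_option autoImplicit false

namespace Pool.Agent.N328.GL
open Finset Pool.Agent.H160R2.HF Pool.Agent.N328.LF Pool.Agent.N328.CD

/-- `G` is obtained from `G'` by contracting the edges outside the range of `β` (and possibly
identifying further vertices): `α` is the map of the vertices, `β` the inclusion of the edges. -/
structure Contr {V' E' V E : Type} (G' : OrGraph V' E') (G : OrGraph V E) (α : V' → V)
    (β : E → E') : Prop where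
  inj : Function.Injective β
  tail : ∀ e, α (G'.t (β e)) = G.t e
  head : ∀ e, α (G'.h (β e)) = G.h e
  con : ∀ e', (∀ e, β e ≠ e') → α (G'.t e') = α (G'.h e')

/-- Move the tails of the edges in `T` and the heads of the edges in `H` to a new vertex `none`,
which is joined to `v` by a new edge `none`. -/
def split {V E : Type} [DecidableEq E] (B : OrGraph V E) (v : V) (T H : Finset E) :
    OrGraph (Option V) (Option E) where
  t x := match x with
    | none => none
    | some e => if e ∈ T then none else some (B.t e)
  h x := match x with
    | none => some v
    | some e => if e ∈ H then none else some (B.h e)

end Pool.Agent.N328.GL
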