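import Pool.Agent.N328.GL.Asm
import Pool.Agent.N328.LF.Asm
import Pool.Agent.N328.CD.Asm
import Pool.Agent.N835.LF.Det
import Pool.Agent.N42.GL.Ctr
import Pool.Agent.N693.GL.Spl
import Pool.Agent.N768.GL.Trf

/-!
Almost all lifts of a connected bridgeless graph of minimum degree at least three have a
`1/2`-flow-pair, and five even subgraphs covering every edge exactly twice.
-/

set_option autoImplicit false

namespace Pool.Agent.N328.GL
open Finset Pool.Agent.H160R2.HF Pool.Agent.N328.LF Pool.Agent.N328.CD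

theorem half (V E : Type) [Fintype V] [Fintype E] [DecidableEq V] [DecidableEq E]
    (B : OrGraph V E) (hB : Connected B) (hb : B.Bridgeless) (h3 : ∀ v, 3 ≤ B.deg univ v) :
    ∃ C : ℝ, ∀ N : ℕ, 1 ≤ N →
      (({p : E → Equiv.Perm (Fin N) | ¬ ∃ φ₂ φ₄ : E × Fin N → ℤ,
        (lift B p).IsHalfFlowPair φ₂ φ₄}.ncard : ℕ) : ℝ) ≤
        C / N * ((N.factorial : ℝ) ^ Fintype.card E) := by
  obtain ⟨C, hC⟩ := induct
    (fun V E _ _ _ _ G => ∃ φ₂ φ₄ : E → ℤ, G.IsHalfFlowPair φ₂ φ₄)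
    (by
      intro V' E' V E _ _ _ _ _ _ _ _ G' G α β h ⟨φ₂, φ₄, hφ⟩
      exact ⟨_, _, Pool.Agent.N42.GL.ctr_half G' G α β h φ₂ φ₄ hφ⟩)
    (fun N => 1 / N)
    (fun V E _ _ _ _ B hB hb v hv => Pool.Agent.N693.GL.spl B hB hb v hv)
    (fun V E _ _ _ _ B v T H hT hH N => Pool.Agent.N768.GL.trf B v T H hT hH N)
    (by
      intro V E _ _ _ _ B hc hb hB
      obtain ⟨C, hC⟩ := main' Pool.Agent.N835.LF.det B hc hb hB
      refine ⟨C, fun N hN => (hC N hN).trans (le_of_eq ?_)⟩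
      ring)
    _ V E B hB (fun X => B.cut_card_ne_one hb X) h3 rfl
  refine ⟨C, fun N hN => (hC N hN).trans (le_of_eq ?_)⟩
  ring

theorem five (V E : Type) [Fintype V] [Fintype E] [DecidableEq V] [DecidableEq E]
    (B : OrGraph V E) (hB : Connected B) (hb : B.Bridgeless) (h3 : ∀ v, 3 ≤ B.deg univ v) :
    ∃ C : ℝ, ∀ N : ℕ, 1 ≤ N →
      (({p : E → Equiv.Perm (Fin N) | ¬ FiveCDC (lift B p)}.ncard : ℕ) : ℝ) ≤
        C * (N : ℝ) ^ (-(1 / 10) : ℝ) * ((N.factorial : ℝ) ^ Fintype.card E) :=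
  induct (fun V E _ _ _ _ G => FiveCDC G)
    (by
      intro V' E' V E _ _ _ _ _ _ _ _ G' G α β h hG
      exact Pool.Agent.N42.GL.ctr_cdc G' G α β h hG)
    (fun N => (N : ℝ) ^ (-(1 / 10) : ℝ))
    (fun V E _ _ _ _ B hB hb v hv => Pool.Agent.N693.GL.spl B hB hb v hv)
    (fun V E _ _ _ _ B v T H hT hH N => Pool.Agent.N768.GL.trf B v T H hT hH N)
    (fun V E _ _ _ _ B hc hb hB => Pool.Agent.N328.CD.main B hc hb hB)
    _ V E B hB (fun X => B.cut_card_ne_one hb X) h3 rfl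

end Pool.Agent.N328.GL
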