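import Pool.Agent.N328.GL.Defs

/-!
Statements of the tasks of project GL (helper328).
-/

set_option autoImplicit false

namespace Pool.Agent.N328.GL.Stm
open Finset Pool.Agent.H160R2.HF Pool.Agent.N328.LF Pool.Agent.N328.CD Pool.Agent.N328.GL

variable {V' E' V E : Type} [Fintype V] [Fintype E] [DecidableEq V] [DecidableEq E]
  [Fintype V'] [Fintype E'] [DecidableEq V'] [DecidableEq E']

/-- GL/CTR, first part. -/
theorem ctr_half (G' : OrGraph V' E') (G : OrGraph V E) (α : V' → V) (β : E → E')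
    (h : Contr G' G α β) (φ₂ φ₄ : E' → ℤ) (hφ : G'.IsHalfFlowPair φ₂ φ₄) :
    G.IsHalfFlowPair (φ₂ ∘ β) (φ₄ ∘ β) := by
  sorry

/-- GL/CTR, second part. -/
theorem ctr_cdc (G' : OrGraph V' E') (G : OrGraph V E) (α : V' → V) (β : E → E')
    (h : Contr G' G α β) (hC : FiveCDC G') : FiveCDC G := by
  sorry

/-- GL/SPL: splitting a vertex of degree at least four. -/
theorem spl (B : OrGraph V E) (hB : Connected B) (hb : ∀ X : Finset V, (B.cut X).card ≠ 1)
    (v : V) (hv : 4 ≤ B.deg univ v) :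
    ∃ T H : Finset E, (∀ e ∈ T, B.t e = v) ∧ (∀ e ∈ H, B.h e = v) ∧ T.card + H.card = 2 ∧
      Connected (split B v T H) ∧ ∀ X : Finset (Option V), ((split B v T H).cut X).card ≠ 1 := by
  sorry

/-- GL/TRF: lifts of `B` from lifts of a split of `B`. -/
theorem trf (B : OrGraph V E) (v : V) (T H : Finset E) (hT : ∀ e ∈ T, B.t e = v)
    (hH : ∀ e ∈ H, B.h e = v) (N : ℕ) :
    ∃ Φ : (Option E → Equiv.Perm (Fin N)) → (E → Equiv.Perm (Fin N)),
      (∀ p, ∃ (α : Option V × Fin N → V × Fin N) (β : E × Fin N → Option E × Fin N),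
        Contr (lift (split B v T H) p) (lift B (Φ p)) α β) ∧
      ∀ A : Set (E → Equiv.Perm (Fin N)), (Φ ⁻¹' A).ncard = N.factorial * A.ncard := by
  sorry

end Pool.Agent.N328.GL.Stm
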